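import Pool.Agent.R291.ScaleCompact

/-!
Every countable amenable group without essentially free compact actions has a scaling entropy
growth gap.
-/

namespace Pool.Agent.Results.MP_0c3bbf_an.NoFreeCompactGap

open Pool.Agent.R291.Scale

theorem result (G : Type) [Group G] [Countable G] (hamenable : ∃ F : ℕ → Finset G, IsFolner F)
    (h : ¬ HasFreeCompactAction G) : GrowthGap G :=
  growthGap_of_no_free_compact G hamenable h

end Pool.Agent.Results.MP_0c3bbf_an.NoFreeCompactGap
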